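import Pool.Agent.H77.BC.Targets

/-!
# Row M2A of bcp_modules: large definable subgroups of `GL 2` (helper79)
-/

set_option autoImplicit false

open Set Matrix
open Pool.Agent.H77.BC

namespace Pool.Agent.H79.BCP

section
variable {K : Type} [Field K]

lemma e00 (a : Kˣ) (φ : Fin 1 → K) (B : GL (Fin 1) K) :
    ((bl a φ B).val : Matrix (Fin 2) (Fin 2) K) 0 0 = a := rfl

lemma e01 (a : Kˣ) (φ : Fin 1 → K) (B : GL (Fin 1) K) :
    ((bl a φ B).val : Matrix (Fin 2) (Fin 2) K) 0 1 = φ 0 := rfl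

lemma e10 (a : Kˣ) (φ : Fin 1 → K) (B : GL (Fin 1) K) :
    ((bl a φ B).val : Matrix (Fin 2) (Fin 2) K) 1 0 = 0 := rfl

lemma e11 (a : Kˣ) (φ : Fin 1 → K) (B : GL (Fin 1) K) :
    ((bl a φ B).val : Matrix (Fin 2) (Fin 2) K) 1 1 = B.val 0 0 := rfl

lemma gl1_ext {B C : GL (Fin 1) K} (h : B.val 0 0 = C.val 0 0) : B = C := by
  apply Units.ext
  ext i j
  fin_cases i
  fin_cases j
  exact h

lemma fun1 (φ : Fin 1 → K) : φ = fun _ => φ 0 := by
  funext i
  fin_cases i
  rfl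

lemma B00_ne (B : GL (Fin 1) K) : (B.val : Matrix (Fin 1) (Fin 1) K) 0 0 ≠ 0 := by
  have h := (Matrix.isUnits_det_units B).ne_zero
  rwa [Matrix.det_fin_one] at h

/-- the multiplier of an upper triangular matrix -/
lemma mult_mem (H : Subgroup (GL (Fin 2) K)) (a : Kˣ) (φ : Fin 1 → K) (B : GL (Fin 1) K)
    (hg : bl a φ B ∈ H) (x : K) (hx : bl 1 (fun _ => x) 1 ∈ H) :
    (bl 1 (fun _ => (a : K) * (B.val 0 0)⁻¹ * x) 1 : GL (Fin 2) K) ∈ H := by
  have hB := B00_ne B
  have h1 : (bl 1 (fun _ => (a : K) * (B.val 0 0)⁻¹ * x) 1 : GL (Fin 2) K) * bl a φ B =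
      bl a φ B * bl 1 (fun _ => x) 1 := by
    rw [bl_mul, bl_mul, one_mul, mul_one, one_mul, mul_one]
    congr 1
    funext j
    fin_cases j
    simp only [Fin.zero_eta, Pi.add_apply, Pi.smul_apply, smul_eq_mul, Units.val_one, one_mul,
      vecMul_one]
    have h2 : ((fun _ => (a : K) * (B.val 0 0)⁻¹ * x) ᵥ* (B.val : Matrix (Fin 1) (Fin 1) K)) 0 =
        ((a : K) * (B.val 0 0)⁻¹ * x) * B.val 0 0 := by
      simp [vecMul, dotProduct]
    rw [h2]
    field_simp
    ring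
  rw [eq_mul_inv_of_mul_eq h1]
  exact H.mul_mem (H.mul_mem hg hx) (H.inv_mem hg)

/-- quotient of two upper triangular matrices with the same diagonal -/
lemma quot (a : Kˣ) (φ φ₀ : Fin 1 → K) (B : GL (Fin 1) K) :
    ∃ ψ : Fin 1 → K, (bl a φ B * (bl a φ₀ B)⁻¹ : GL (Fin 2) K) = bl 1 ψ 1 := by
  rw [bl_inv, bl_mul, mul_inv_cancel, mul_inv_cancel]
  exact ⟨_, rfl⟩

end

theorem pf_M2A {M : Type} (U : RU M) (hA : RKA U) (hB : RKB U) (hG : GRB U) (_hV : RNV U)
    (hK : RKS U) (hL : RGL U) (hP : RPE U) (hM : MUL U) : M2A U := by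
  intro K _ _ _ _ H hH hrk
  have : Infinite K := inferInstance
  set f := U.R (univ : Set K) with hf
  have hRG : U.R (univ : Set (GL (Fin 2) K)) = 2 * 2 * f := hL 2
  obtain ⟨hPD, hPR⟩ := hP (K := K) 1
  set P : Subgroup (GL (Fin 2) K) := (Pv e0 : Subgroup (GL (Fin (1 + 1)) K)) with hPdef
  have hPR' : U.R (P : Set (GL (Fin 2) K)) = (1 * 1 + 1 + 1) * f := hPR
  have htopD : U.D ((⊤ : Subgroup (GL (Fin 2) K)) : Set (GL (Fin 2) K)) := by
    rw [Subgroup.coe_top]
    exact Ful.full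
  have hgrb := hG (⊤ : Subgroup (GL (Fin 2) K)) H P htopD hH hPD le_top le_top
  rw [Subgroup.coe_top, hRG, hPR'] at hgrb
  set X : Set (GL (Fin 2) K) := ((H ⊓ P : Subgroup (GL (Fin 2) K)) : Set (GL (Fin 2) K)) with hX
  have hXR : 2 * f < U.R X := by omega
  have hXD : U.D X := by
    rw [hX, Subgroup.coe_inf]
    exact D_inter hH hPD
  have hXne : X.Nonempty := ⟨1, (H ⊓ P).one_mem⟩
  have hR2 : U.R (univ : Set (K × K)) = f + f := by
    have h1 := hB.prod (α := K) (β := K) (X := univ) (Y := univ) Ful.full Ful.full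
      univ_nonempty univ_nonempty
    rwa [univ_prod_univ] at h1
  -- entries
  have hE : ∀ i j : Fin 2, DFn U (fun g : GL (Fin 2) K => (g.val : Matrix (Fin 2) (Fin 2) K) i j) :=
    fun i j => DFn_comp (DFn_entry i j) DFn_val
  have hXbl : ∀ g ∈ X, g ∈ H ∧ ∃ (a : Kˣ) (φ : Fin 1 → K) (B : GL (Fin 1) K), g = bl a φ B := by
    intro g hg
    have hg' : g ∈ H ⊓ P := hg
    rw [Subgroup.mem_inf] at hg'
    exact ⟨hg'.1, mem_Pv_e0.1 hg'.2⟩
  -- Step 1: `AA H` is infinite
  have hinf : ((AA (k := 1) H : AddSubgroup (Fin 1 → K)) : Set (Fin 1 → K)).Infinite := by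
    intro hfin
    set F : GL (Fin 2) K → K × K := fun g => ((g.val : Matrix (Fin 2) (Fin 2) K) 0 0,
      (g.val : Matrix (Fin 2) (Fin 2) K) 1 1) with hF
    have hFD : DFn U F := DFn_pair (hE 0 0) (hE 1 1)
    have hle := hB.fib_le (X := X) (f := F) (n := 0) hXD hFD hXne (by
      intro b hb
      obtain ⟨g₀, hg₀, hb'⟩ := hb
      have hfibD : U.D {g | g ∈ X ∧ F g = b} :=
        D_inter hXD (D_eqf hFD (DFn_const b))
      have hfibne : {g | g ∈ X ∧ F g = b}.Nonempty := ⟨g₀, hg₀, hb'⟩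
      have hfibfin : {g | g ∈ X ∧ F g = b}.Finite := by
        obtain ⟨hg₀H, a₀, φ₀, B₀, hg₀e⟩ := hXbl g₀ hg₀
        have hkey : ∀ g ∈ {g | g ∈ X ∧ F g = b}, ∃ ψ : Fin 1 → K,
            g * g₀⁻¹ = bl 1 ψ 1 ∧ ψ ∈ AA (k := 1) H := by
          rintro g ⟨hg, hgb⟩
          obtain ⟨hgH, a, φ, B, hge⟩ := hXbl g hg
          have h1 : F g = F g₀ := hgb.trans hb'.symm
          rw [hge, hg₀e] at h1
          simp only [hF, Prod.mk.injEq, e00, e11] at h1
          have ha : a = a₀ := Units.ext h1.1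
          have hBB : B = B₀ := gl1_ext h1.2
          subst ha
          subst hBB
          obtain ⟨ψ, hψ⟩ := quot a φ φ₀ B
          refine ⟨ψ, by rw [hge, hg₀e]; exact hψ, ?_⟩
          rw [mem_AA, ← hψ, ← hge, ← hg₀e]
          exact H.mul_mem hgH (H.inv_mem hg₀H)
        refine Set.Finite.of_injOn (f := fun g : GL (Fin 2) K =>
          (fun _ : Fin 1 => ((g * g₀⁻¹).val : Matrix (Fin 2) (Fin 2) K) 0 1)) ?_ ?_ hfin
        · intro g hg
          obtain ⟨ψ, h1, h2⟩ := hkey g hg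
          simp only
          rw [h1, e01, ← fun1 ψ]
          exact h2
        · intro g hg g' hg' he
          obtain ⟨ψ, h1, -⟩ := hkey g hg
          obtain ⟨ψ', h1', -⟩ := hkey g' hg'
          simp only at he
          rw [h1, h1', e01, e01, ← fun1 ψ, ← fun1 ψ'] at he
          rw [he, ← h1'] at h1
          exact mul_right_cancel h1
      exact le_of_eq ((hA.fin hfibD hfibne).2 hfibfin))
    have hle2 : U.R (F '' X) ≤ U.R (univ : Set (K × K)) :=
      hA.mono (DFn_image hFD hXD) Ful.full (hXne.image F) (subset_univ _)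
    omega
  -- Step 2: the group of the entries
  set c1 : K →+ (Fin 1 → K) :=
    { toFun := fun t _ => t, map_zero' := rfl, map_add' := fun _ _ => rfl } with hc1
  set A' : AddSubgroup K := (AA (k := 1) H).comap c1 with hA'
  have hA'm : ∀ t : K, t ∈ A' ↔ (bl 1 (fun _ => t) 1 : GL (Fin 2) K) ∈ H := fun t => Iff.rfl
  have hA'D : U.D (A' : Set K) := by
    have h1 : DFn U (fun t : K => (bl 1 (fun _ => t) 1 : GL (Fin 2) K)) := by
      refine DFn_gl (DFn_mat fun i j => ?_)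
      fin_cases i
      · fin_cases j
        · exact DFn_const (1 : K)
        · exact DFn_id
      · fin_cases j
        · exact DFn_const (0 : K)
        · exact DFn_const ((1 : Matrix (Fin 1) (Fin 1) K) 0 0)
    exact DFn_preim h1 hH
  have hA'bot : A' ≠ ⊥ := by
    intro h0
    refine hinf ((Set.finite_singleton (0 : Fin 1 → K)).subset ?_)
    intro φ hφ
    have h1 : φ 0 ∈ A' := by
      show c1 (φ 0) ∈ AA (k := 1) H
      have : c1 (φ 0) = φ := (fun1 φ).symm
      rw [this]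
      exact hφ
    rw [h0, AddSubgroup.mem_bot] at h1
    rw [mem_singleton_iff, fun1 φ, h1]
    rfl
  have hmul : {l : K | ∀ x ∈ A', l * x ∈ A'}.Infinite := by
    intro hfin
    set q : GL (Fin 2) K → K := fun g => (g.val : Matrix (Fin 2) (Fin 2) K) 0 0 *
      ((g.val : Matrix (Fin 2) (Fin 2) K) 1 1)⁻¹ with hq
    have hqD : DFn U q := DFn_mul (hE 0 0) (DFn_inv (hE 1 1))
    have hqX : q '' X ⊆ {l : K | ∀ x ∈ A', l * x ∈ A'} := by
      rintro l ⟨g, hg, rfl⟩ x hx
      obtain ⟨hgH, a, φ, B, hge⟩ := hXbl g hg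
      rw [hge] at hgH
      rw [hA'm] at hx ⊢
      have h1 := mult_mem H a φ B hgH x hx
      rw [hge]
      exact h1
    have hle := hB.fib_le (X := X) (f := q) (n := 2 * f) hXD hqD hXne (by
      intro b hb
      obtain ⟨g₀, hg₀, hb'⟩ := hb
      have hfibD : U.D {g | g ∈ X ∧ q g = b} :=
        D_inter hXD (D_eqf hqD (DFn_const b))
      have hfibne : {g | g ∈ X ∧ q g = b}.Nonempty := ⟨g₀, hg₀, hb'⟩
      set i : GL (Fin 2) K → K × K := fun g => ((g.val : Matrix (Fin 2) (Fin 2) K) 1 1,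
        (g.val : Matrix (Fin 2) (Fin 2) K) 0 1) with hi
      have hiD : DFn U i := DFn_pair (hE 1 1) (hE 0 1)
      have hinj : InjOn i {g | g ∈ X ∧ q g = b} := by
        rintro g ⟨hg, hgb⟩ g' ⟨hg', hgb'⟩ he
        obtain ⟨-, a, φ, B, hge⟩ := hXbl g hg
        obtain ⟨-, a', φ', B', hge'⟩ := hXbl g' hg'
        have h1 : q g = q g' := hgb.trans hgb'.symm
        rw [hge, hge'] at he h1
        simp only [hi, Prod.mk.injEq, e11, e01] at he
        simp only [hq, e00, e11] at h1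
        have hBB : B = B' := gl1_ext he.1
        subst hBB
        have hφ : φ = φ' := by
          rw [fun1 φ, fun1 φ', he.2]
        have hB0 := inv_ne_zero (B00_ne B)
        have ha : a = a' := Units.ext (mul_right_cancel₀ hB0 h1)
        rw [hge, hge', hφ, ha]
      have h1 := hB.inj hfibD hiD hfibne hinj
      have h2 : U.R (i '' {g | g ∈ X ∧ q g = b}) ≤ U.R (univ : Set (K × K)) :=
        hA.mono (DFn_image hiD hfibD) Ful.full (hfibne.image i) (subset_univ _)
      omega)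
    have h0 : U.R (q '' X) = 0 :=
      (hA.fin (DFn_image hqD hXD) (hXne.image q)).2 (hfin.subset hqX)
    omega
  have htop := hM A' hA'D hA'bot hmul
  rw [AddSubgroup.eq_top_iff']
  intro φ
  have h1 : φ 0 ∈ A' := by
    rw [htop]
    trivial
  have h2 : c1 (φ 0) = φ := (fun1 φ).symm
  have h3 : c1 (φ 0) ∈ AA (k := 1) H := h1
  rwa [h2] at h3

end Pool.Agent.H79.BCP
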