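import Pool.Agent.H77.BC.Targets

/-!
# Row RNG of bcp_modules: infinite definable subrings of an algebraically closed field (helper79)
-/

set_option autoImplicit false

open Pool.Agent.H77.BC

namespace Pool.Agent.H79.BCP

theorem pf_RNG {M : Type} (U : RU M) (h1 : SRF U) (h2 : FDE U) (h3 : EDF U) (h4 : FSL U)
    (h5 : GAL) : RNG U := by
  intro K _ _ _ _ R hR hmul hinf
  obtain ⟨E, hE⟩ := h1 R hR hmul hinf
  have hED : U.D (E : Set K) := by rw [hE]; exact hR
  have hEI : (E : Set K).Infinite := by rw [hE]; exact hinf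
  have hfd := h2 E hED hEI
  have htop : E = ⊤ := by
    refine h5 E hfd fun L hL => ?_
    exact h4 L (h3 E L hED hfd hL) (hEI.mono hL)
  rw [AddSubgroup.eq_top_iff']
  intro x
  have hx : x ∈ (E : Set K) := by
    rw [htop]
    trivial
  rw [hE] at hx
  exact hx

end Pool.Agent.H79.BCP
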